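import Mathlib
import Pool.Agent.Lib.MP_c03fb1_al.CS.Wit

namespace Pool.Agent.Results.MP_c03fb1_al.CommSimple

universe u

/-- `f` (an element of the free nonassociative `K`-algebra on countably many generators) is a
polynomial identity of the `K`-algebra `A`: it vanishes under every substitution of elements of `A`
for the generators. -/
def IsIdentity (K : Type u) [Field K] (A : Type u) [NonUnitalNonAssocRing A] [Module K A]
    [IsScalarTower K A A] [SMulCommClass K A A] (f : FreeNonUnitalNonAssocAlgebra K ℕ) : Prop :=
  ∀ r : ℕ → A, FreeNonUnitalNonAssocAlgebra.lift K r f = 0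

/-- The identity `f = 0` follows from the set `S` of identities: every `K`-algebra that satisfies all
identities in `S` satisfies `f`. -/
def FollowsFrom (K : Type u) [Field K] (S : Set (FreeNonUnitalNonAssocAlgebra K ℕ))
    (f : FreeNonUnitalNonAssocAlgebra K ℕ) : Prop :=
  ∀ (A : Type u) [NonUnitalNonAssocRing A] [Module K A] [IsScalarTower K A A] [SMulCommClass K A A],
    (∀ g ∈ S, IsIdentity K A g) → IsIdentity K A f

/-- `R` is finitely based: some finite set of identities of `R` implies all identities of `R`. -/
def FinitelyBased (K : Type u) [Field K] (R : Type u) [NonUnitalNonAssocRing R] [Module K R]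
    [IsScalarTower K R R] [SMulCommClass K R R] : Prop :=
  ∃ S : Set (FreeNonUnitalNonAssocAlgebra K ℕ), S.Finite ∧ (∀ g ∈ S, IsIdentity K R g) ∧
    ∀ f, IsIdentity K R f → FollowsFrom K S f

open Pool.Agent.Lib.MP_c03fb1_al.S Pool.Agent.Lib.MP_c03fb1_al.CS in
/-- Over every infinite field there is a three-dimensional commutative central simple algebra that
is not finitely based. -/
theorem result (K : Type u) [Field K] [Infinite K] :
    ∃ (R : Type u) (_ : NonUnitalNonAssocRing R) (_ : Module K R) (_ : IsScalarTower K R R)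
      (_ : SMulCommClass K R R), Module.finrank K R = 3 ∧ (∀ x y : R, x * y = y * x) ∧
        IsSimpleRing R ∧ (∀ T : CentroidHom R, ∃ c : K, ∀ x : R, T x = c • x) ∧
        ¬ FinitelyBased K R := by
  refine ⟨G3 K, inferInstance, inferInstance, inferInstance, inferInstance, G3.finrank_eq K,
    G3.mul_comm', G3.isSimpleRing K, G3.central, ?_⟩
  rintro ⟨S, hS, hid, hall⟩
  obtain ⟨N, hN⟩ : ∃ N : ℕ, ∀ g ∈ S, ∀ m ∈ g.coeff.support, m.length ≤ N := by
    have hfin : (⋃ g ∈ S, (fun m : FreeMagma ℕ => m.length) '' (g.coeff.support : Set _)).Finite :=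
      hS.biUnion fun g _ => (g.coeff.support.finite_toSet).image _
    obtain ⟨N, hN⟩ := hfin.bddAbove
    refine ⟨N, fun g hg m hm => hN ?_⟩
    exact Set.mem_biUnion hg ⟨m, hm, rfl⟩
  have hW : ∀ g ∈ S, IsIdentity K (U K (N + 3)) g := fun g hg r =>
    witness_identityG g (hid g hg) (fun m hm => by have := hN g hg m hm; omega) r
  exact bad_UG N (hall (badG K N) (bad_G3 N) (U K (N + 3)) hW _)

end Pool.Agent.Results.MP_c03fb1_al.CommSimple
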